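import Pool.Agent.P.MP_db1407_al.Main

namespace Pool.Agent.Results.MP_db1407_al.NoMinimal

/-- There are a compactly generated locally compact Hausdorff group `G` and a subgroup `H` such
that `G/H` is a nondiscrete faithful irreducible coset space and `G` has no minimal nontrivial
closed normal subgroup. -/
theorem result :
    ∃ (G : Type) (_ : Group G) (_ : TopologicalSpace G),
      IsTopologicalGroup G ∧ T2Space G ∧ LocallyCompactSpace G ∧
      (∃ K : Set G, IsCompact K ∧ Subgroup.closure K = ⊤) ∧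
      ∃ H : Subgroup G,
        IsClosed (H : Set G) ∧ H ≠ ⊤ ∧
        (∀ K : Subgroup G, IsClosed (K : Set G) → H ≤ K → K = H ∨ K = ⊤) ∧
        (∀ x : G, (∀ g : G, g⁻¹ * x * g ∈ H) → x = 1) ∧
        ¬ IsOpen (H : Set G) ∧
        ¬ ∃ M : Subgroup G, M.Normal ∧ IsClosed (M : Set G) ∧ M ≠ ⊥ ∧
          ∀ N : Subgroup G, N.Normal → IsClosed (N : Set G) → N ≤ M → N = ⊥ ∨ N = M := by
  obtain ⟨t, ht, hf⟩ := P.MP_db1407_al.exists_t
  refine ⟨P.MP_db1407_al.G, inferInstance, inferInstance, inferInstance, inferInstance,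
    inferInstance, P.MP_db1407_al.compactly_generated, P.MP_db1407_al.H ht,
    P.MP_db1407_al.H_closed ht, P.MP_db1407_al.H_ne_top ht, P.MP_db1407_al.H_maximal ht, ?_,
    P.MP_db1407_al.H_not_open ht, P.MP_db1407_al.no_minimal⟩
  intro x hx
  have h : x ∈ (P.MP_db1407_al.H ht).normalCore := fun g => by simpa using hx g⁻¹
  rwa [P.MP_db1407_al.H_core ht hf, Subgroup.mem_bot] at h

end Pool.Agent.Results.MP_db1407_al.NoMinimal
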